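import Pool.Agent.W709.VC.GeoDefs

/-!
# The critical point equations in complex form
-/

set_option autoImplicit false

namespace Pool.Agent.W366.VC

open Pool.Agent.W709.VC Complex

noncomputable def Ch (η θ : ℝ) : ℂ := Complex.cosh ((η + θ * I) / 2)
noncomputable def Sh (η θ : ℝ) : ℂ := Complex.sinh ((η + θ * I) / 2)

lemma pos_den {η : ℝ} (hη : 0 < η) (θ : ℝ) : 0 < Real.cosh η + Real.cos θ := by
  have h1 := Real.one_lt_cosh.mpr hη.ne'
  have h2 := Real.neg_one_le_cos θ
  linarith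

lemma id1 (η θ : ℝ) : Sh η θ * ((Real.cosh η + Real.cos θ : ℝ) : ℂ) =
    Ch η θ * ((Real.sinh η : ℝ) + I * (Real.sin θ : ℝ)) := by
  have e1 : ((Real.cosh η : ℝ) : ℂ) = Complex.cosh ((η + θ * I) / 2 + (η - θ * I) / 2) := by
    push_cast
    congr 1
    ring
  have e2 : ((Real.cos θ : ℝ) : ℂ) = Complex.cosh ((η + θ * I) / 2 - (η - θ * I) / 2) := by
    rw [show ((η : ℂ) + θ * I) / 2 - (η - θ * I) / 2 = θ * I by ring, Complex.cosh_mul_I]
    push_cast
    rfl
  have e3 : ((Real.sinh η : ℝ) : ℂ) = Complex.sinh ((η + θ * I) / 2 + (η - θ * I) / 2) := by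
    push_cast
    congr 1
    ring
  have e4 : I * ((Real.sin θ : ℝ) : ℂ) = Complex.sinh ((η + θ * I) / 2 - (η - θ * I) / 2) := by
    rw [show ((η : ℂ) + θ * I) / 2 - (η - θ * I) / 2 = θ * I by ring, Complex.sinh_mul_I]
    push_cast
    ring
  rw [Complex.ofReal_add, e1, e2, e3, e4, Complex.cosh_add, Complex.cosh_sub, Complex.sinh_add,
    Complex.sinh_sub]
  unfold Sh Ch
  ring

lemma hasDerivAt_Ch (η θ : ℝ) : HasDerivAt (fun θ : ℝ => Ch η θ) (Sh η θ * (I / 2)) θ := by
  unfold Ch Sh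
  have h1 : HasDerivAt (fun θ : ℝ => ((η : ℂ) + θ * I) / 2) (I / 2) θ := by
    have h2 : HasDerivAt (fun θ : ℝ => (θ : ℂ)) 1 θ := Complex.ofRealCLM.hasDerivAt
    have h3 := (((h2.mul_const I).const_add (η : ℂ)).div_const 2)
    simpa using h3
  exact (Complex.hasDerivAt_cosh _).comp θ h1

/-- the integral of `sinh / (cosh + cos)` -/
noncomputable def TT (η x : ℝ) : ℝ := ∫ τ in (0 : ℝ)..x, Real.sinh η / (Real.cosh η + Real.cos τ)

lemma cont_den {η : ℝ} (hη : 0 < η) :
    Continuous (fun τ : ℝ => Real.sinh η / (Real.cosh η + Real.cos τ)) := by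
  apply Continuous.div continuous_const (by fun_prop)
  intro x
  exact (pos_den hη x).ne'

lemma hasDerivAt_TT {η : ℝ} (hη : 0 < η) (x : ℝ) :
    HasDerivAt (TT η) (Real.sinh η / (Real.cosh η + Real.cos x)) x :=
  ((cont_den hη).integral_hasStrictDerivAt 0 x).hasDerivAt

lemma hasDerivAt_ell {η : ℝ} (hη : 0 < η) (x : ℝ) :
    HasDerivAt (ell η) (-Real.sin x / (Real.cosh η + Real.cos x)) x := by
  have hp := pos_den hη x
  have h1 : HasDerivAt (fun τ : ℝ => 2 * Real.cosh η + 2 * Real.cos τ) (2 * -Real.sin x) x :=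
    ((Real.hasDerivAt_cos x).const_mul 2).const_add _
  have h2 := h1.log (by nlinarith)
  have h3 : -Real.sin x / (Real.cosh η + Real.cos x) =
      2 * -Real.sin x / (2 * Real.cosh η + 2 * Real.cos x) := by
    rw [← mul_add, mul_div_mul_left _ _ two_ne_zero]
  rw [h3]
  exact h2

noncomputable def HH (η θ : ℝ) : ℂ :=
  Ch η θ * Complex.exp (-(1 / 2) * (ell η θ : ℂ) - (I / 2) * (TT η θ : ℂ))

lemma hasDerivAt_HH {η : ℝ} (hη : 0 < η) (θ : ℝ) : HasDerivAt (HH η) 0 θ := by
  have hp := pos_den hη θ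
  have h1 : HasDerivAt (fun θ : ℝ => (-(1 / 2) * (ell η θ : ℂ) - (I / 2) * (TT η θ : ℂ)))
      (-(1 / 2) * ((-Real.sin θ / (Real.cosh η + Real.cos θ) : ℝ) : ℂ) -
        (I / 2) * ((Real.sinh η / (Real.cosh η + Real.cos θ) : ℝ) : ℂ)) θ :=
    ((hasDerivAt_ell hη θ).ofReal_comp.const_mul _).sub ((hasDerivAt_TT hη θ).ofReal_comp.const_mul _)
  have h2 := (hasDerivAt_Ch η θ).mul h1.cexp
  have h3 := id1 η θ
  have hpc : ((Real.cosh η + Real.cos θ : ℝ) : ℂ) ≠ 0 := by exact_mod_cast hp.ne'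
  have h4 : (Sh η θ * (I / 2)) * Complex.exp (-(1 / 2) * (ell η θ : ℂ) - (I / 2) * (TT η θ : ℂ)) +
      Ch η θ * (Complex.exp (-(1 / 2) * (ell η θ : ℂ) - (I / 2) * (TT η θ : ℂ)) *
        (-(1 / 2) * ((-Real.sin θ / (Real.cosh η + Real.cos θ) : ℝ) : ℂ) -
        (I / 2) * ((Real.sinh η / (Real.cosh η + Real.cos θ) : ℝ) : ℂ))) = 0 := by
    rw [Complex.ofReal_div, Complex.ofReal_div, Complex.ofReal_neg]
    have h5 : Sh η θ = Ch η θ * ((Real.sinh η : ℝ) + I * (Real.sin θ : ℝ)) /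
        ((Real.cosh η + Real.cos θ : ℝ) : ℂ) := by
      rw [eq_div_iff hpc, h3]
    rw [h5]
    generalize Complex.exp (-(1 / 2) * (ell η θ : ℂ) - (I / 2) * (TT η θ : ℂ)) = Ex
    generalize ((Real.cosh η + Real.cos θ : ℝ) : ℂ) = Dn at hpc ⊢
    field_simp
    linear_combination (Ch η θ * Ex * (Real.sin θ : ℂ)) * Complex.I_sq
  rw [← h4]
  exact h2

lemma HH_const {η : ℝ} (hη : 0 < η) (x y : ℝ) : HH η x = HH η y :=
  is_const_of_deriv_eq_zero (fun θ => (hasDerivAt_HH hη θ).differentiableAt)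
    (fun θ => (hasDerivAt_HH hη θ).deriv) x y

lemma Ch_eq {η : ℝ} (hη : 0 < η) (x y : ℝ) : Ch η x = Ch η y *
    Complex.exp (((ell η x - ell η y : ℝ) : ℂ) / 2 + (I / 2) * ((TT η x - TT η y : ℝ) : ℂ)) := by
  have h := HH_const hη x y
  unfold HH at h
  have h1 : Complex.exp (-(1 / 2) * (ell η x : ℂ) - (I / 2) * (TT η x : ℂ)) ≠ 0 :=
    Complex.exp_ne_zero _
  apply mul_right_cancel₀ h1
  rw [h, mul_assoc, ← Complex.exp_add]
  congr 2
  push_cast
  ring

lemma sum_XY (α b η : ℝ) :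
    Complex.exp (-(α * Complex.I)) + Complex.exp (-(η + b * Complex.I)) =
      2 * Complex.exp (-(η + (b + α) * I) / 2) * Ch η (b - α) := by
  rw [Ch, Complex.cosh]
  have e1 : Complex.exp (-(α * Complex.I)) = Complex.exp (-(η + (b + α) * I) / 2) *
      Complex.exp ((η + ((b - α : ℝ) : ℂ) * I) / 2) := by
    rw [← Complex.exp_add]
    congr 1
    push_cast
    ring
  have e2 : Complex.exp (-(η + b * Complex.I)) = Complex.exp (-(η + (b + α) * I) / 2) *
      Complex.exp (-((η + ((b - α : ℝ) : ℂ) * I) / 2)) := by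
    rw [← Complex.exp_add]
    congr 1
    push_cast
    ring
  rw [e1, e2]
  ring

lemma one_add_XY (α b η : ℝ) :
    1 + Complex.exp (-(α * Complex.I)) * Complex.exp (-(η + b * Complex.I)) =
      2 * Complex.exp (-(η + (b + α) * I) / 2) * Ch η (b + α) := by
  rw [Ch, Complex.cosh]
  have e1 : (1 : ℂ) = Complex.exp (-(η + (b + α) * I) / 2) *
      Complex.exp ((η + ((b + α : ℝ) : ℂ) * I) / 2) := by
    rw [← Complex.exp_add, ← Complex.exp_zero]
    congr 1
    push_cast
    ring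
  have e2 : Complex.exp (-(α * Complex.I)) * Complex.exp (-(η + b * Complex.I)) =
      Complex.exp (-(η + (b + α) * I) / 2) *
      Complex.exp (-((η + ((b + α : ℝ) : ℂ) * I) / 2)) := by
    rw [← Complex.exp_add, ← Complex.exp_add]
    congr 1
    push_cast
    ring
  rw [e2]
  conv_lhs => rw [e1]
  ring

lemma norm_sum (α b η : ℝ) :
    ‖Complex.exp (-(α * Complex.I)) + Complex.exp (-(η + b * Complex.I))‖ ^ 2 =
      Real.exp (-η) * (2 * Real.cosh η + 2 * Real.cos (b - α)) := by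
  have e1 : Complex.exp (-(α * Complex.I)) = ((Real.cos α : ℝ) : ℂ) - ((Real.sin α : ℝ) : ℂ) * I := by
    rw [← neg_mul, Complex.exp_mul_I, Complex.cos_neg, Complex.sin_neg]
    push_cast
    ring
  have e2 : Complex.exp (-(η + b * Complex.I)) = ((Real.exp (-η) * Real.cos b : ℝ) : ℂ) -
      ((Real.exp (-η) * Real.sin b : ℝ) : ℂ) * I := by
    rw [neg_add, Complex.exp_add, ← neg_mul, Complex.exp_mul_I, Complex.cos_neg, Complex.sin_neg]
    push_cast
    ring
  rw [← Complex.normSq_eq_norm_sq, Complex.normSq_apply, e1, e2]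
  simp only [Complex.add_re, Complex.sub_re, Complex.ofReal_re, Complex.mul_re, Complex.I_re,
    mul_zero, Complex.ofReal_im, Complex.I_im, zero_mul, sub_zero, sub_self, Complex.add_im,
    Complex.sub_im, Complex.mul_im, mul_one, add_zero, zero_sub, zero_add]
  rw [Real.cos_sub, Real.cosh_eq]
  have h1 : Real.exp (-η) * Real.exp η = 1 := by rw [← Real.exp_add]; simp
  have h2 := Real.sin_sq_add_cos_sq α
  have h3 := Real.sin_sq_add_cos_sq b
  linear_combination h2 + (Real.exp (-η)) ^ 2 * h3 - h1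

lemma norm_sum' (α b η : ℝ) :
    ‖Complex.exp (-(α * Complex.I)) + 1 / Complex.exp (-(η + b * Complex.I))‖ ^ 2 =
      Real.exp η * (2 * Real.cosh η + 2 * Real.cos (b + α)) := by
  have h := norm_sum α (-b) (-η)
  have e1 : 1 / Complex.exp (-(η + b * Complex.I)) =
      Complex.exp (-(((-η : ℝ) : ℂ) + ((-b : ℝ) : ℂ) * Complex.I)) := by
    rw [one_div, ← Complex.exp_neg]
    congr 1
    push_cast
    ring
  rw [e1, h, neg_neg, Real.cosh_neg, show -b - α = -(b + α) by ring, Real.cos_neg]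

lemma norm_one_sub (α : ℝ) : ‖1 - Complex.exp (-(α * Complex.I))‖ ^ 2 =
    (2 * Real.sin (α / 2)) ^ 2 := by
  have e1 : Complex.exp (-(α * Complex.I)) = ((Real.cos α : ℝ) : ℂ) - ((Real.sin α : ℝ) : ℂ) * I := by
    rw [← neg_mul, Complex.exp_mul_I, Complex.cos_neg, Complex.sin_neg]
    push_cast
    ring
  rw [← Complex.normSq_eq_norm_sq, Complex.normSq_apply, e1]
  simp only [Complex.sub_re, Complex.ofReal_re, Complex.mul_re, Complex.I_re,
    mul_zero, Complex.ofReal_im, Complex.I_im, zero_mul, sub_zero, sub_self,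
    Complex.sub_im, Complex.mul_im, mul_one, add_zero, zero_sub, zero_add, Complex.one_re,
    Complex.one_im]
  have h1 : Real.cos α = 1 - 2 * Real.sin (α / 2) ^ 2 := by
    have := Real.cos_two_mul (α / 2)
    rw [mul_div_cancel₀ _ two_ne_zero] at this
    have h3 := Real.sin_sq_add_cos_sq (α / 2)
    linarith
  have h2 := Real.sin_sq_add_cos_sq α
  rw [h1] at h2 ⊢
  linear_combination h2

theorem alg : S_ALG := by
  intro A α b η hc
  obtain ⟨hα, hb, hη, hbm, hαb, c1, c2, c3⟩ := hc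
  refine ⟨?_, ?_⟩
  · rw [sum_XY, one_add_XY, Ch_eq hη (b + α) (b - α)]
    have hT : TT η (b + α) - TT η (b - α) = 4 * Real.pi - 2 * A * b := by
      have h1 : TT η (b + α) - TT η (b - α) =
          ∫ τ in (b - α)..(b + α), Real.sinh η / (Real.cosh η + Real.cos τ) := by
        unfold TT
        rw [intervalIntegral.integral_interval_sub_left]
        · exact (cont_den hη).intervalIntegrable _ _
        · exact (cont_den hη).intervalIntegrable _ _
      rw [h1]
      linarith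
    have hl : ell η (b + α) - ell η (b - α) = -(2 * A * η) := by
      have : 4 * ((A : ℝ) / 2) * η = 2 * A * η := by ring
      linarith
    rw [hT, hl]
    have h2 : Complex.exp (((-(2 * A * η) : ℝ) : ℂ) / 2 +
        (I / 2) * ((4 * Real.pi - 2 * A * b : ℝ) : ℂ)) =
        Complex.exp (-(η + b * Complex.I)) ^ A := by
      rw [← Complex.exp_nat_mul, ← mul_one (Complex.exp (↑A * -(↑η + ↑b * I))),
        ← Complex.exp_two_pi_mul_I, ← Complex.exp_add]
      congr 1
      push_cast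
      ring
    rw [h2]
    ring
  · have hs : 0 < 2 * Real.sin (α / 2) := by
      have : 0 < Real.sin (α / 2) := Real.sin_pos_of_pos_of_lt_pi (by linarith) (by linarith)
      linarith
    have hp1 : 0 < 2 * Real.cosh η + 2 * Real.cos (b - α) := by
      have := pos_den hη (b - α)
      linarith
    have hp2 : 0 < 2 * Real.cosh η + 2 * Real.cos (b + α) := by
      have := pos_den hη (b + α)
      linarith
    have h1 : (2 * Real.cosh η + 2 * Real.cos (b + α)) * (2 * Real.cosh η + 2 * Real.cos (b - α)) =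
        (2 * Real.sin (α / 2)) ^ 4 := by
      apply Real.log_injOn_pos (Set.mem_Ioi.mpr (mul_pos hp2 hp1)) (Set.mem_Ioi.mpr (pow_pos hs 4))
      rw [Real.log_mul hp2.ne' hp1.ne', Real.log_pow]
      push_cast
      exact c2
    rw [norm_one_sub]
    have h2 : (‖Complex.exp (-(α * Complex.I)) + Complex.exp (-(η + b * Complex.I))‖ *
        ‖Complex.exp (-(α * Complex.I)) + 1 / Complex.exp (-(η + b * Complex.I))‖) ^ 2 =
        ((2 * Real.sin (α / 2)) ^ 2) ^ 2 := by
      rw [mul_pow, norm_sum, norm_sum']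
      have h3 : Real.exp (-η) * Real.exp η = 1 := by rw [← Real.exp_add]; simp
      calc Real.exp (-η) * (2 * Real.cosh η + 2 * Real.cos (b - α)) *
            (Real.exp η * (2 * Real.cosh η + 2 * Real.cos (b + α)))
          = (Real.exp (-η) * Real.exp η) * ((2 * Real.cosh η + 2 * Real.cos (b + α)) *
            (2 * Real.cosh η + 2 * Real.cos (b - α))) := by ring
        _ = ((2 * Real.sin (α / 2)) ^ 2) ^ 2 := by
          rw [h3, h1]
          ring
    exact (pow_left_inj₀ (by positivity) (by positivity) two_ne_zero).mp h2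

end Pool.Agent.W366.VC
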